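import Mathlib

set_option autoImplicit false

/-! # Means of doubly periodic functions, independence for coprime periods, fourth moments -/

namespace Pool.Agent.HP25.LM

open Finset

/-- the mean of `f` over the pairs of integers `0 ≤ a, b < m` -/
noncomputable def E (m : ℕ) (f : ℤ × ℤ → ℝ) : ℝ := (∑ a ∈ range m, ∑ b ∈ range m, f (a, b)) / (m : ℝ) ^ 2

/-- `f` has the period `m` in both variables -/
def Per (m : ℕ) (f : ℤ × ℤ → ℝ) : Prop := ∀ a b : ℤ, f (a + m, b) = f (a, b) ∧ f (a, b + m) = f (a, b)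

lemma per_nat {m : ℕ} {f : ℤ × ℤ → ℝ} (h : Per m f) (a b : ℤ) (k : ℕ) :
    f (a + m * k, b) = f (a, b) ∧ f (a, b + m * k) = f (a, b) := by
  induction k with
  | zero => simp
  | succ k ih =>
    have e1 : a + (m : ℤ) * ((k + 1 : ℕ) : ℤ) = (a + m * k) + m := by push_cast; ring
    have e2 : b + (m : ℤ) * ((k + 1 : ℕ) : ℤ) = (b + m * k) + m := by push_cast; ring
    rw [e1, e2, (h _ _).1, (h _ _).2]
    exact ih

lemma per_mul {m : ℕ} {f : ℤ × ℤ → ℝ} (h : Per m f) (k : ℕ) : Per (m * k) f := by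
  intro a b
  rw [Nat.cast_mul]
  exact per_nat h a b k

lemma per_mul' {m : ℕ} {f : ℤ × ℤ → ℝ} (h : Per m f) (k : ℕ) : Per (k * m) f := by
  rw [mul_comm]
  exact per_mul h k

lemma per_mod {m : ℕ} {f : ℤ × ℤ → ℝ} (h : Per m f) (a b : ℕ) : f (((a % m : ℕ) : ℤ), ((b % m : ℕ) : ℤ)) = f ((a : ℤ), (b : ℤ)) := by
  have h1 := (per_nat h ((a % m : ℕ) : ℤ) ((b % m : ℕ) : ℤ) (a / m)).1
  have h2 := (per_nat h (a : ℤ) ((b % m : ℕ) : ℤ) (b / m)).2
  have e1 : ((a % m : ℕ) : ℤ) + (m : ℤ) * ((a / m : ℕ) : ℤ) = a := by exact_mod_cast (Nat.mod_add_div a m)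
  have e2 : ((b % m : ℕ) : ℤ) + (m : ℤ) * ((b / m : ℕ) : ℤ) = b := by exact_mod_cast (Nat.mod_add_div b m)
  rw [e1] at h1
  rw [e2] at h2
  rw [← h1, ← h2]

lemma sum_per {m : ℕ} (g : ℕ → ℝ) (h : ∀ t, g (t + m) = g t) (k : ℕ) : ∑ t ∈ range (m * k), g t = k * ∑ t ∈ range m, g t := by
  have h1 : ∀ k t, g (m * k + t) = g t := by
    intro k t
    induction k with
    | zero => simp
    | succ k ih =>
      rw [← ih, Nat.mul_succ, show m * k + m + t = m * k + t + m by ring, h]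
  induction k with
  | zero => simp
  | succ k ih =>
    rw [Nat.mul_succ, sum_range_add, ih]
    have h2 : ∑ x ∈ range m, g (m * k + x) = ∑ x ∈ range m, g x := sum_congr rfl fun x _ => h1 k x
    rw [h2]
    push_cast
    ring

lemma sum_sq {m : ℕ} {f : ℤ × ℤ → ℝ} (h : Per m f) (k : ℕ) :
    ∑ a ∈ range (m * k), ∑ b ∈ range (m * k), f (a, b) = (k : ℝ) ^ 2 * ∑ a ∈ range m, ∑ b ∈ range m, f (a, b) := by
  have h1 : ∀ a : ℕ, ∑ b ∈ range (m * k), f ((a : ℤ), (b : ℤ)) = k * ∑ b ∈ range m, f ((a : ℤ), (b : ℤ)) := fun a =>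
    sum_per (fun b => f ((a : ℤ), (b : ℤ))) (fun t => by
      have := (h (a : ℤ) (t : ℤ)).2
      simpa using this) k
  rw [sum_congr rfl fun a _ => h1 a, ← mul_sum, sum_per (fun a => ∑ b ∈ range m, f ((a : ℤ), (b : ℤ))) (fun t => by
      apply sum_congr rfl
      intro b _
      have := (h (t : ℤ) (b : ℤ)).1
      simpa using this) k]
  ring

lemma E_mul {m : ℕ} {f : ℤ × ℤ → ℝ} (h : Per m f) {k : ℕ} (hk : 1 ≤ k) : E (m * k) f = E m f := by
  unfold E
  rw [sum_sq h]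
  have hk0 : (k : ℝ) ^ 2 ≠ 0 := by
    have : (k : ℝ) ≠ 0 := by exact_mod_cast (by omega : k ≠ 0)
    positivity
  push_cast
  rw [mul_pow, mul_comm ((m : ℝ) ^ 2) ((k : ℝ) ^ 2), mul_div_mul_left _ _ hk0]

lemma crt_sum {m n : ℕ} (hm : 1 ≤ m) (hn : 1 ≤ n) (co : Nat.Coprime m n) (F : ℕ → ℕ → ℝ) :
    ∑ t ∈ range (m * n), F (t % m) (t % n) = ∑ a ∈ range m, ∑ b ∈ range n, F a b := by
  rw [← sum_product']
  refine sum_bij' (fun t _ => (t % m, t % n)) (fun z _ => (Nat.chineseRemainder co z.1 z.2 : ℕ)) ?_ ?_ ?_ ?_ ?_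
  · intro t _
    rw [mem_product, mem_range, mem_range]
    exact ⟨Nat.mod_lt _ (by omega), Nat.mod_lt _ (by omega)⟩
  · intro z _
    rw [mem_range]
    exact Nat.chineseRemainder_lt_mul co z.1 z.2 (by omega) (by omega)
  · intro t ht
    have ht' := mem_range.1 ht
    have h2 := (Nat.chineseRemainder co (t % m) (t % n)).2
    have h3 : ((Nat.chineseRemainder co (t % m) (t % n) : ℕ)) ≡ t [MOD m * n] := by
      rw [← Nat.modEq_and_modEq_iff_modEq_mul co]
      exact ⟨h2.1.trans (Nat.mod_modEq t m), h2.2.trans (Nat.mod_modEq t n)⟩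
    have h4 := Nat.chineseRemainder_lt_mul co (t % m) (t % n) (by omega) (by omega)
    exact Nat.ModEq.eq_of_lt_of_lt h3 h4 ht'
  · intro z hz
    rw [mem_product, mem_range, mem_range] at hz
    have h2 := (Nat.chineseRemainder co z.1 z.2).2
    have h3 : (Nat.chineseRemainder co z.1 z.2 : ℕ) % m = z.1 := by
      rw [h2.1, Nat.mod_eq_of_lt hz.1]
    have h4 : (Nat.chineseRemainder co z.1 z.2 : ℕ) % n = z.2 := by
      rw [h2.2, Nat.mod_eq_of_lt hz.2]
    exact Prod.ext h3 h4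
  · intro t _
    rfl

lemma E_coprime {m n : ℕ} (hm : 1 ≤ m) (hn : 1 ≤ n) (co : Nat.Coprime m n) {f g : ℤ × ℤ → ℝ} (hf : Per m f) (hg : Per n g) :
    E (m * n) (fun t => f t * g t) = E m f * E n g := by
  unfold E
  have h1 : ∑ a ∈ range (m * n), ∑ b ∈ range (m * n), f ((a : ℤ), (b : ℤ)) * g ((a : ℤ), (b : ℤ)) =
      (∑ a ∈ range m, ∑ b ∈ range m, f ((a : ℤ), (b : ℤ))) * ∑ a ∈ range n, ∑ b ∈ range n, g ((a : ℤ), (b : ℤ)) := by
    have h2 : ∀ a : ℕ, ∑ b ∈ range (m * n), f ((a : ℤ), (b : ℤ)) * g ((a : ℤ), (b : ℤ)) =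
        (∑ u ∈ range m, f (((a % m : ℕ) : ℤ), (u : ℤ))) * ∑ v ∈ range n, g (((a % n : ℕ) : ℤ), (v : ℤ)) := by
      intro a
      rw [sum_mul_sum, ← crt_sum hm hn co (fun u v => f (((a % m : ℕ) : ℤ), (u : ℤ)) * g (((a % n : ℕ) : ℤ), (v : ℤ)))]
      apply sum_congr rfl
      intro b _
      rw [per_mod hf, per_mod hg]
    rw [sum_congr rfl fun a _ => h2 a, crt_sum hm hn co (fun x y => (∑ u ∈ range m, f ((x : ℤ), (u : ℤ))) *
      ∑ v ∈ range n, g ((y : ℤ), (v : ℤ))), sum_mul_sum]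
  rw [h1]
  push_cast
  rw [mul_pow, mul_div_mul_comm]

lemma E_add (m : ℕ) (f g : ℤ × ℤ → ℝ) : E m (fun t => f t + g t) = E m f + E m g := by
  unfold E
  simp only [sum_add_distrib, add_div]

lemma E_smul (m : ℕ) (c : ℝ) (f : ℤ × ℤ → ℝ) : E m (fun t => c * f t) = c * E m f := by
  unfold E
  simp only [← mul_sum, mul_div_assoc]

lemma E_mono {m : ℕ} {f g : ℤ × ℤ → ℝ} (h : ∀ t, f t ≤ g t) : E m f ≤ E m g := by
  unfold E
  apply div_le_div_of_nonneg_right _ (by positivity)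
  exact sum_le_sum fun a _ => sum_le_sum fun b _ => h _

lemma E_const {m : ℕ} (hm : 1 ≤ m) (c : ℝ) : E m (fun _ => c) = c := by
  unfold E
  simp only [sum_const, card_range, nsmul_eq_mul]
  have : (m : ℝ) ≠ 0 := by exact_mod_cast (by omega : m ≠ 0)
  field_simp

lemma E_nonneg {m : ℕ} {f : ℤ × ℤ → ℝ} (h : ∀ t, 0 ≤ f t) : 0 ≤ E m f := by
  unfold E
  exact div_nonneg (sum_nonneg fun a _ => sum_nonneg fun b _ => h _) (by positivity)

/-- independent variables with values `-1, 0, 1` and mean zero, as functions with coprime periods -/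
structure Sys (q : ℕ → ℕ) (y : ℕ → ℤ × ℤ → ℝ) : Prop where
  pos : ∀ i, 1 ≤ q i
  cop : ∀ i j, i ≠ j → Nat.Coprime (q i) (q j)
  per : ∀ i, Per (q i) (y i)
  mean : ∀ i, E (q i) (y i) = 0
  var : ∀ i, 2 / 9 ≤ E (q i) (fun t => y i t ^ 2)
  cube : ∀ i t, y i t ^ 3 = y i t

/-- the product of the periods of a block -/
def Q (q : ℕ → ℕ) (u n : ℕ) : ℕ := ∏ i ∈ range n, q (u + i)

/-- the sum of the variables of a block -/
def X (y : ℕ → ℤ × ℤ → ℝ) (u n : ℕ) (t : ℤ × ℤ) : ℝ := ∑ i ∈ range n, y (u + i) t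

section
variable {q : ℕ → ℕ} {y : ℕ → ℤ × ℤ → ℝ}

lemma Sys.sq (h : Sys q y) (i : ℕ) (t : ℤ × ℤ) : y i t ^ 2 ≤ 1 ∧ y i t ^ 4 = y i t ^ 2 := by
  have h1 := h.cube i t
  have h2 : y i t * (y i t - 1) * (y i t + 1) = 0 := by linear_combination h1
  rcases mul_eq_zero.1 h2 with h3 | h3
  · rcases mul_eq_zero.1 h3 with h4 | h4
    · rw [h4]; norm_num
    · have : y i t = 1 := by linarith
      rw [this]; norm_num
  · have : y i t = -1 := by linarith
    rw [this]; norm_num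

lemma Q_pos (h : Sys q y) (u n : ℕ) : 1 ≤ Q q u n := Nat.one_le_iff_ne_zero.2 (prod_ne_zero_iff.2 fun i _ => by
  have := h.pos (u + i)
  omega)

lemma Q_succ (u n : ℕ) : Q q u (n + 1) = Q q u n * q (u + n) := prod_range_succ _ _

lemma Q_add (u n m : ℕ) : Q q u (n + m) = Q q u n * Q q (u + n) m := by
  unfold Q
  rw [prod_range_add]
  congr 1
  apply prod_congr rfl
  intro i _
  rw [add_assoc]

lemma X_succ (u n : ℕ) (t : ℤ × ℤ) : X y u (n + 1) t = X y u n t + y (u + n) t := sum_range_succ _ _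

lemma X_add (u n m : ℕ) (t : ℤ × ℤ) : X y u (n + m) t = X y u n t + X y (u + n) m t := by
  unfold X
  rw [sum_range_add]
  congr 1
  apply sum_congr rfl
  intro i _
  rw [add_assoc]

lemma cop_one (h : Sys q y) (u n v : ℕ) (hv : u + n ≤ v) : Nat.Coprime (Q q u n) (q v) := by
  unfold Q
  apply Nat.Coprime.prod_left
  intro i hi
  apply h.cop
  have := mem_range.1 hi
  omega

lemma cop_block (h : Sys q y) (u n m : ℕ) : Nat.Coprime (Q q u n) (Q q (u + n) m) := by
  unfold Q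
  apply Nat.Coprime.prod_left
  intro i hi
  apply Nat.Coprime.prod_right
  intro j _
  apply h.cop
  have := mem_range.1 hi
  omega

lemma X_per (h : Sys q y) (u n : ℕ) : Per (Q q u n) (X y u n) := by
  intro a b
  unfold X
  constructor
  · apply sum_congr rfl
    intro i hi
    obtain ⟨k, hk⟩ : q (u + i) ∣ Q q u n := dvd_prod_of_mem _ hi
    rw [hk, Nat.cast_mul]
    exact (per_nat (h.per (u + i)) a b k).1
  · apply sum_congr rfl
    intro i hi
    obtain ⟨k, hk⟩ : q (u + i) ∣ Q q u n := dvd_prod_of_mem _ hi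
    rw [hk, Nat.cast_mul]
    exact (per_nat (h.per (u + i)) a b k).2

lemma per_pow {m : ℕ} {f : ℤ × ℤ → ℝ} (h : Per m f) (a : ℕ) : Per m (fun t => f t ^ a) := fun c d =>
  ⟨by simp only [(h c d).1], by simp only [(h c d).2]⟩

lemma E_q_sq_le (h : Sys q y) (i : ℕ) : E (q i) (fun t => y i t ^ 2) ≤ 1 := by
  rw [← E_const (h.pos i) 1]
  exact E_mono fun t => (h.sq i t).1

lemma moments (h : Sys q y) (u n : ℕ) :
    E (Q q u n) (X y u n) = 0 ∧ 2 / 9 * n ≤ E (Q q u n) (fun t => X y u n t ^ 2) ∧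
      E (Q q u n) (fun t => X y u n t ^ 2) ≤ n ∧ E (Q q u n) (fun t => X y u n t ^ 4) ≤ 3 * (n : ℝ) ^ 2 := by
  induction n with
  | zero =>
    simp [E, X, Q]
  | succ n ih =>
    obtain ⟨i1, i2, i3, i4⟩ := ih
    have hco := cop_one h u n (u + n) le_rfl
    have hQ := Q_pos h u n
    have hq := h.pos (u + n)
    have hX := X_per h u n
    have hy := h.per (u + n)
    have hone : Per (q (u + n)) (fun _ : ℤ × ℤ => (1 : ℝ)) := fun _ _ => ⟨rfl, rfl⟩
    have honeQ : Per (Q q u n) (fun _ : ℤ × ℤ => (1 : ℝ)) := fun _ _ => ⟨rfl, rfl⟩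
    have key : ∀ a b : ℕ, E (Q q u n * q (u + n)) (fun t => X y u n t ^ a * y (u + n) t ^ b) =
        E (Q q u n) (fun t => X y u n t ^ a) * E (q (u + n)) (fun t => y (u + n) t ^ b) := fun a b =>
      E_coprime hQ hq hco (per_pow hX a) (per_pow hy b)
    have k0 : E (q (u + n)) (fun t => y (u + n) t ^ 0) = 1 := by
      simp only [pow_zero]
      exact E_const hq 1
    have kX0 : E (Q q u n) (fun t => X y u n t ^ 0) = 1 := by
      simp only [pow_zero]
      exact E_const hQ 1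
    have k1 : E (q (u + n)) (fun t => y (u + n) t ^ 1) = 0 := by
      simp only [pow_one]
      exact h.mean (u + n)
    have kX1 : E (Q q u n) (fun t => X y u n t ^ 1) = 0 := by
      simp only [pow_one]
      exact i1
    have k3 : E (q (u + n)) (fun t => y (u + n) t ^ 3) = 0 := by
      simp only [h.cube]
      exact h.mean (u + n)
    have k2 := h.var (u + n)
    have k2' := E_q_sq_le h (u + n)
    have k4 : E (q (u + n)) (fun t => y (u + n) t ^ 4) = E (q (u + n)) (fun t => y (u + n) t ^ 2) := by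
      congr 1
      funext t
      exact (h.sq (u + n) t).2
    rw [Q_succ]
    refine ⟨?_, ?_, ?_, ?_⟩
    · have e : X y u (n + 1) = fun t => X y u n t ^ 1 * y (u + n) t ^ 0 + X y u n t ^ 0 * y (u + n) t ^ 1 := by
        funext t
        rw [X_succ]
        ring
      rw [e, E_add, key, key, k0, kX1, k1]
      ring
    · have e : (fun t => X y u (n + 1) t ^ 2) = fun t => (X y u n t ^ 2 * y (u + n) t ^ 0 + 2 * (X y u n t ^ 1 * y (u + n) t ^ 1)) +
          X y u n t ^ 0 * y (u + n) t ^ 2 := by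
        funext t
        rw [X_succ]
        ring
      rw [e, E_add, E_add, E_smul, key, key, key, k0, kX0, kX1, k1]
      push_cast
      linarith
    · have e : (fun t => X y u (n + 1) t ^ 2) = fun t => (X y u n t ^ 2 * y (u + n) t ^ 0 + 2 * (X y u n t ^ 1 * y (u + n) t ^ 1)) +
          X y u n t ^ 0 * y (u + n) t ^ 2 := by
        funext t
        rw [X_succ]
        ring
      rw [e, E_add, E_add, E_smul, key, key, key, k0, kX0, kX1, k1]
      push_cast
      linarith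
    · have e : (fun t => X y u (n + 1) t ^ 4) = fun t => (((X y u n t ^ 4 * y (u + n) t ^ 0 + 4 * (X y u n t ^ 3 * y (u + n) t ^ 1)) +
          6 * (X y u n t ^ 2 * y (u + n) t ^ 2)) + 4 * (X y u n t ^ 1 * y (u + n) t ^ 3)) + X y u n t ^ 0 * y (u + n) t ^ 4 := by
        funext t
        rw [X_succ]
        ring
      rw [e, E_add, E_add, E_add, E_add, E_smul, E_smul, E_smul, key, key, key, key, key, k0, kX0, kX1, k1, k3, k4]
      have hn0 : (0 : ℝ) ≤ n := Nat.cast_nonneg n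
      have h2 : E (Q q u n) (fun t => X y u n t ^ 2) * E (q (u + n)) (fun t => y (u + n) t ^ 2) ≤ n * 1 :=
        mul_le_mul i3 k2' (by linarith) hn0
      push_cast
      nlinarith

end

/-- a polynomial below `15` times the indicator function of `[1/40, ∞)` -/
lemma phi_le (x : ℝ) : 2 * x + x ^ 2 - x ^ 4 / 27 - 1 / 18 ≤ 15 * (if 1 / 40 ≤ x then 1 else 0) := by
  split_ifs with h
  · nlinarith [sq_nonneg (x ^ 2 - 17), sq_nonneg (x - 4)]
  · push Not at h
    rcases le_or_gt 0 x with h0 | h0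
    · have : x ^ 4 ≥ 0 := by positivity
      nlinarith
    · obtain ⟨z, hz⟩ : ∃ z, z = -x := ⟨_, rfl⟩
      have hz0 : 0 < z := by linarith
      have hx : x = -z := by linarith
      rw [hx]
      have h1 : 0 ≤ (z - 3) ^ 2 * (z + 6) := by positivity
      nlinarith [mul_nonneg hz0.le h1]

end Pool.Agent.HP25.LM
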