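import Pool.Agent.HP25.LM.A

set_option autoImplicit false

/-! # Large block sums with probability bounded below; blocks are independent -/

namespace Pool.Agent.HP25.LM

open Finset

open Classical in
/-- the indicator function of `P` -/
noncomputable def ind (P : ℤ × ℤ → Prop) (t : ℤ × ℤ) : ℝ := if P t then 1 else 0

lemma ind_nonneg (P : ℤ × ℤ → Prop) (t : ℤ × ℤ) : 0 ≤ ind P t := by
  unfold ind
  split_ifs <;> norm_num

lemma ind_le (P R : ℤ × ℤ → Prop) (h : ∀ t, P t → R t) (t : ℤ × ℤ) : ind P t ≤ ind R t := by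
  unfold ind
  by_cases h1 : P t
  · simp [h1, h t h1]
  · by_cases h2 : R t <;> simp [h1, h2]

lemma ind_and (P R : ℤ × ℤ → Prop) (t : ℤ × ℤ) : ind (fun t => P t ∧ R t) t = ind P t * ind R t := by
  unfold ind
  by_cases h1 : P t <;> by_cases h2 : R t <;> simp [h1, h2]

lemma ind_not (P : ℤ × ℤ → Prop) (t : ℤ × ℤ) : ind (fun t => ¬ P t) t = 1 + (-1) * ind P t := by
  unfold ind
  by_cases h1 : P t <;> simp [h1]

lemma ind_per {m : ℕ} {f : ℤ × ℤ → ℝ} (h : Per m f) (R : ℝ → Prop) : Per m (ind fun t => R (f t)) := by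
  intro a b
  unfold ind
  have h1 := h a b
  by_cases hr : R (f (a, b))
  · rw [if_pos hr, if_pos (by show R (f (a + m, b)); rw [h1.1]; exact hr), if_pos (by show R (f (a, b + m)); rw [h1.2]; exact hr)]
    exact ⟨rfl, rfl⟩
  · rw [if_neg hr, if_neg (by show ¬ R (f (a + m, b)); rw [h1.1]; exact hr), if_neg (by show ¬ R (f (a, b + m)); rw [h1.2]; exact hr)]
    exact ⟨rfl, rfl⟩

lemma per_mulf {m : ℕ} {f g : ℤ × ℤ → ℝ} (hf : Per m f) (hg : Per m g) : Per m (fun t => f t * g t) := fun a b =>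
  ⟨by simp only [(hf a b).1, (hg a b).1], by simp only [(hf a b).2, (hg a b).2]⟩

section
variable {q : ℕ → ℕ} {y : ℕ → ℤ × ℤ → ℝ}

/-- with probability at least `1/270` the sum of a block of `n` variables is at least `√n / 40` -/
lemma one_sided (h : Sys q y) (u n : ℕ) (hn : 1 ≤ n) :
    1 / 270 ≤ E (Q q u n) (ind fun t => √(n : ℝ) / 40 ≤ X y u n t) := by
  obtain ⟨h1, h2, -, h4⟩ := moments h u n
  have hn0 : (0 : ℝ) < n := by exact_mod_cast hn
  have hs : 0 < √(n : ℝ) := Real.sqrt_pos.2 hn0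
  have hss : √(n : ℝ) ^ 2 = n := Real.sq_sqrt hn0.le
  have h5 : E (Q q u n) (fun t => ((2 * (√(n : ℝ))⁻¹ * X y u n t + (n : ℝ)⁻¹ * X y u n t ^ 2) +
      (-((n : ℝ) ^ 2)⁻¹ / 27) * X y u n t ^ 4) + (-(1 / 18))) ≤
      E (Q q u n) (fun t => 15 * ind (fun t => √(n : ℝ) / 40 ≤ X y u n t) t) := by
    apply E_mono
    intro t
    have h6 := phi_le (X y u n t / √(n : ℝ))
    have e2 : (X y u n t / √(n : ℝ)) ^ 2 = (n : ℝ)⁻¹ * X y u n t ^ 2 := by
      rw [div_pow, hss]
      field_simp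
    have e4 : (X y u n t / √(n : ℝ)) ^ 4 = ((n : ℝ) ^ 2)⁻¹ * X y u n t ^ 4 := by
      rw [div_pow, show √(n : ℝ) ^ 4 = (√(n : ℝ) ^ 2) ^ 2 by ring, hss]
      field_simp
    rw [e2, e4] at h6
    have e1 : X y u n t / √(n : ℝ) = (√(n : ℝ))⁻¹ * X y u n t := by
      field_simp
    have e5 : (if 1 / 40 ≤ X y u n t / √(n : ℝ) then (1 : ℝ) else 0) = ind (fun t => √(n : ℝ) / 40 ≤ X y u n t) t := by
      unfold ind
      have : (1 / 40 ≤ X y u n t / √(n : ℝ)) ↔ √(n : ℝ) / 40 ≤ X y u n t := by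
        rw [le_div_iff₀ hs]
        constructor <;> intro h <;> linarith
      simp only [this]
    rw [e5, e1] at h6
    linarith
  rw [E_add, E_add, E_add, E_smul, E_smul, E_smul, E_smul, E_const (Q_pos h u n), h1] at h5
  have h6 : 2 / 9 ≤ (n : ℝ)⁻¹ * E (Q q u n) (fun t => X y u n t ^ 2) := by
    rw [inv_mul_eq_div, le_div_iff₀ hn0]
    exact h2
  have h7 : ((n : ℝ) ^ 2)⁻¹ * E (Q q u n) (fun t => X y u n t ^ 4) ≤ 3 := by
    rw [inv_mul_eq_div, div_le_iff₀ (by positivity)]
    exact h4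
  linarith

/-- all the `m` blocks of `n` variables from `u` on are large -/
def All (y : ℕ → ℤ × ℤ → ℝ) (u n : ℕ) : ℕ → ℤ × ℤ → Prop
  | 0 => fun _ => True
  | m + 1 => fun t => All y u n m t ∧ √(n : ℝ) / 40 ≤ X y (u + m * n) n t

lemma all_sum (u n m : ℕ) (t : ℤ × ℤ) (h : All y u n m t) : m * (√(n : ℝ) / 40) ≤ X y u (m * n) t := by
  induction m with
  | zero => simp [X]
  | succ m ih =>
    obtain ⟨h1, h2⟩ := h
    have h3 := ih h1
    rw [Nat.succ_mul, X_add]
    push_cast
    linarith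

lemma all_per (h : Sys q y) (u n m : ℕ) : Per (Q q u (m * n)) (ind (All y u n m)) := by
  induction m with
  | zero => intro a b; exact ⟨rfl, rfl⟩
  | succ m ih =>
    rw [Nat.succ_mul, Q_add]
    have e : ind (All y u n (m + 1)) = fun t => ind (All y u n m) t * ind (fun t => √(n : ℝ) / 40 ≤ X y (u + m * n) n t) t := by
      funext t
      exact ind_and _ _ t
    rw [e]
    exact per_mulf (per_mul ih (Q q (u + m * n) n)) (per_mul' (ind_per (X_per h (u + m * n) n) (fun x => √(n : ℝ) / 40 ≤ x)) (Q q u (m * n)))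

lemma all_prob (h : Sys q y) (u n m : ℕ) (hn : 1 ≤ n) : (1 / 270) ^ m ≤ E (Q q u (m * n)) (ind (All y u n m)) := by
  induction m with
  | zero =>
    have : E (Q q u (0 * n)) (ind (All y u n 0)) = 1 := by
      have e : ind (All y u n 0) = fun _ => 1 := by
        funext t
        unfold ind All
        simp
      rw [e]
      exact E_const (Q_pos h u _) 1
    rw [this, pow_zero]
  | succ m ih =>
    rw [Nat.succ_mul, Q_add]
    have e : ind (All y u n (m + 1)) = fun t => ind (All y u n m) t * ind (fun t => √(n : ℝ) / 40 ≤ X y (u + m * n) n t) t := by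
      funext t
      exact ind_and _ _ t
    rw [e, E_coprime (Q_pos h u _) (Q_pos h _ n) (cop_block h u (m * n) n) (all_per h u n m)
      (ind_per (X_per h (u + m * n) n) (fun x => √(n : ℝ) / 40 ≤ x)), pow_succ]
    exact mul_le_mul ih (one_sided h _ n hn) (by norm_num) (E_nonneg (ind_nonneg _))

/-- none of the blocks `a i, ..., a (i + 1) - 1`, `i < J`, of the length `m i * n i` is large -/
def NoneLarge (y : ℕ → ℤ × ℤ → ℝ) (a m n : ℕ → ℕ) : ℕ → ℤ × ℤ → Prop
  | 0 => fun _ => True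
  | J + 1 => fun t => NoneLarge y a m n J t ∧ ¬ All y (a J) (n J) (m J) t

lemma none_per (h : Sys q y) (a m n : ℕ → ℕ) (ha : ∀ j, a (j + 1) = a j + m j * n j) (J : ℕ) :
    ∃ l, a J = a 0 + l ∧ Per (Q q (a 0) l) (ind (NoneLarge y a m n J)) ∧
      ∀ _ : ∀ j, 1 ≤ n j, E (Q q (a 0) l) (ind (NoneLarge y a m n J)) ≤ ∏ j ∈ range J, (1 - (1 / 270) ^ m j) := by
  induction J with
  | zero =>
    refine ⟨0, rfl, fun a b => ⟨rfl, rfl⟩, fun _ => ?_⟩
    rw [prod_range_zero]
    have e : ind (NoneLarge y a m n 0) = fun _ => 1 := by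
      funext t
      unfold ind NoneLarge
      simp
    rw [e, E_const (Q_pos h _ _)]
  | succ J ih =>
    obtain ⟨l, hl, hp, hE⟩ := ih
    have e : ind (NoneLarge y a m n (J + 1)) = fun t => ind (NoneLarge y a m n J) t * ind (fun t => ¬ All y (a J) (n J) (m J) t) t := by
      funext t
      exact ind_and _ _ t
    have hnot : Per (Q q (a J) (m J * n J)) (ind fun t => ¬ All y (a J) (n J) (m J) t) := by
      have e3 : (ind fun t => ¬ All y (a J) (n J) (m J) t) = fun t => 1 + (-1) * ind (All y (a J) (n J) (m J)) t := by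
        funext t
        exact ind_not _ t
      rw [e3]
      intro c d
      have := all_per h (a J) (n J) (m J) c d
      exact ⟨by simp only [this.1], by simp only [this.2]⟩
    refine ⟨l + m J * n J, by rw [ha, hl]; ring, ?_, fun hn => ?_⟩
    · rw [Q_add, ← hl, e]
      exact per_mulf (per_mul hp _) (per_mul' hnot _)
    · have hEJ := hE hn
      rw [Q_add, ← hl, e, E_coprime (Q_pos h _ _) (Q_pos h _ _) (by rw [hl]; exact cop_block h _ _ _) hp hnot, prod_range_succ]
      have h1 : E (Q q (a J) (m J * n J)) (ind fun t => ¬ All y (a J) (n J) (m J) t) ≤ 1 - (1 / 270) ^ m J := by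
        have e2 : (ind fun t => ¬ All y (a J) (n J) (m J) t) = fun t => 1 + (-1) * ind (All y (a J) (n J) (m J)) t := by
          funext t
          exact ind_not _ t
        rw [e2, E_add, E_const (Q_pos h _ _), E_smul]
        have := all_prob h (a J) (n J) (m J) (hn J)
        linarith
      apply mul_le_mul hEJ h1 (E_nonneg (ind_nonneg _))
      exact (E_nonneg (ind_nonneg _)).trans hEJ

end

end Pool.Agent.HP25.LM
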