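import Pool.Agent.HP25.LM.B

set_option autoImplicit false

/-! # The law of the iterated logarithm from below, with a uniform bound for the length -/

namespace Pool.Agent.HP25.LM

open Finset Filter Topology

/-- the number of the sub-blocks -/
noncomputable def mm (j : ℕ) : ℕ := ⌊Real.log (j + 1) / Real.log 270⌋₊ + 1

lemma log270 : 0 < Real.log 270 ∧ Real.log 270 ≤ 6 := by
  constructor
  · exact Real.log_pos (by norm_num)
  · rw [Real.log_le_iff_le_exp (by norm_num)]
    have h1 : (2.7182818283 : ℝ) < Real.exp 1 := Real.exp_one_gt_d9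
    have h2 : Real.exp 6 = Real.exp 1 ^ 6 := by
      rw [← Real.exp_nat_mul]
      norm_num
    have h4 : (2.7 : ℝ) ^ 6 ≤ Real.exp 1 ^ 6 := pow_le_pow_left₀ (by norm_num) (by linarith) 6
    rw [h2]
    norm_num at h4
    linarith

lemma mm_ge (j : ℕ) : Real.log (j + 1) ≤ 6 * mm j := by
  obtain ⟨h1, h2⟩ := log270
  have h3 : Real.log (j + 1) / Real.log 270 ≤ mm j := by
    unfold mm
    push_cast
    exact (Nat.lt_floor_add_one _).le
  rw [div_le_iff₀ h1] at h3
  have h4 : (0 : ℝ) ≤ mm j := Nat.cast_nonneg _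
  nlinarith

lemma mm_prob (j : ℕ) : 1 / (270 * ((j : ℝ) + 1)) ≤ (1 / 270) ^ mm j := by
  obtain ⟨h1, h2⟩ := log270
  have h0 : (0 : ℝ) < (j : ℝ) + 1 := by positivity
  have h3 : (⌊Real.log (j + 1) / Real.log 270⌋₊ : ℝ) ≤ Real.log (j + 1) / Real.log 270 :=
    Nat.floor_le (div_nonneg (Real.log_nonneg (by linarith [Nat.cast_nonneg (α := ℝ) j])) h1.le)
  rw [le_div_iff₀ h1] at h3
  have h4 : (270 : ℝ) ^ ⌊Real.log (j + 1) / Real.log 270⌋₊ ≤ (j : ℝ) + 1 := by
    rw [← Real.log_le_log_iff (by positivity) h0, Real.log_pow]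
    exact h3
  have h5 : (1 / 270 : ℝ) ^ mm j = 1 / (270 ^ ⌊Real.log (j + 1) / Real.log 270⌋₊ * 270) := by
    unfold mm
    rw [pow_succ, one_div, inv_pow, ← mul_inv, one_div]
  rw [h5]
  apply one_div_le_one_div_of_le (by positivity)
  nlinarith

lemma mm_le (j : ℕ) : mm j ≤ j + 1 := by
  have h2 : (1 : ℝ) ≤ Real.log 270 := by
    rw [Real.le_log_iff_exp_le (by norm_num)]
    linarith [Real.exp_one_lt_d9]
  unfold mm
  have h3 : Real.log (j + 1) / Real.log 270 ≤ j := by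
    rw [div_le_iff₀ (by linarith)]
    have h4 : Real.log ((j : ℝ) + 1) ≤ j := by
      have := Real.log_le_sub_one_of_pos (show (0 : ℝ) < (j : ℝ) + 1 by positivity)
      linarith
    have h5 : (0 : ℝ) ≤ j := Nat.cast_nonneg j
    nlinarith
  have h4 : ⌊Real.log (j + 1) / Real.log 270⌋₊ ≤ j := by
    have := Nat.floor_le_floor h3
    rwa [Nat.floor_natCast] at this
  omega

/-- the first index of the block number `j` -/
noncomputable def aa (a0 : ℕ) : ℕ → ℕ
  | 0 => a0
  | j + 1 => aa a0 j + mm j * (aa a0 j / mm j + 1)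

lemma mm_pos (j : ℕ) : 1 ≤ mm j := by
  unfold mm
  omega

lemma aa_len (a0 j : ℕ) : aa a0 j ≤ mm j * (aa a0 j / mm j + 1) ∧ mm j * (aa a0 j / mm j + 1) ≤ aa a0 j + mm j := by
  have h1 := Nat.div_add_mod (aa a0 j) (mm j)
  have h2 := Nat.mod_lt (aa a0 j) (mm_pos j)
  rw [Nat.mul_add, mul_one]
  omega

lemma aa_bounds (a0 : ℕ) (h0 : 1 ≤ a0) (j : ℕ) : 2 ^ j * a0 ≤ aa a0 j ∧ aa a0 j ≤ 3 ^ j * a0 := by
  induction j with
  | zero => simp [aa]
  | succ j ih =>
    obtain ⟨h1, h2⟩ := ih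
    obtain ⟨h3, h4⟩ := aa_len a0 j
    have h5 : mm j ≤ aa a0 j := by
      have h6 := mm_le j
      have h7 : j + 1 ≤ 2 ^ j := Nat.lt_two_pow_self
      have h8 : 2 ^ j * 1 ≤ 2 ^ j * a0 := Nat.mul_le_mul_left _ h0
      omega
    have e : aa a0 (j + 1) = aa a0 j + mm j * (aa a0 j / mm j + 1) := rfl
    rw [e, pow_succ, pow_succ]
    constructor
    · calc 2 ^ j * 2 * a0 = 2 * (2 ^ j * a0) := by ring
        _ ≤ 2 * aa a0 j := by omega
        _ ≤ _ := by omega
    · calc aa a0 j + mm j * (aa a0 j / mm j + 1) ≤ 3 * aa a0 j := by omega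
        _ ≤ 3 * (3 ^ j * a0) := by omega
        _ = 3 ^ j * 3 * a0 := by ring

lemma aa_mono (a0 : ℕ) {i j : ℕ} (h : i ≤ j) : aa a0 i ≤ aa a0 j := by
  induction j, h using Nat.le_induction with
  | base => exact le_rfl
  | succ j _ ih =>
    have e : aa a0 (j + 1) = aa a0 j + mm j * (aa a0 j / mm j + 1) := rfl
    omega

lemma loglog (a0 : ℕ) (h0 : 3 ≤ a0) (j : ℕ) (hj : Real.log 3 + Real.log a0 ≤ (j : ℝ) + 1) :
    Real.log (Real.log (aa a0 (j + 1))) ≤ 12 * mm j := by
  have ha0 : (3 : ℝ) ≤ a0 := by exact_mod_cast h0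
  obtain ⟨h1, h2⟩ := aa_bounds a0 (by omega) (j + 1)
  have h2' : (aa a0 (j + 1) : ℝ) ≤ 3 ^ (j + 1) * a0 := by exact_mod_cast h2
  have h1' : (3 : ℝ) ≤ aa a0 (j + 1) := by
    have h3 : a0 ≤ aa a0 (j + 1) := (Nat.le_mul_of_pos_left a0 (by positivity : 0 < 2 ^ (j + 1))).trans h1
    exact_mod_cast h0.trans h3
  have hL : 0 < Real.log (aa a0 (j + 1)) := Real.log_pos (by linarith)
  have hl3 : 0 < Real.log 3 := Real.log_pos (by norm_num)
  have hla : 0 < Real.log a0 := Real.log_pos (by linarith)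
  have h3 : Real.log (aa a0 (j + 1)) ≤ ((j : ℝ) + 1) * (Real.log 3 + Real.log a0) := by
    refine (Real.log_le_log (by linarith) h2').trans ?_
    rw [Real.log_mul (by positivity) (by positivity), Real.log_pow]
    push_cast
    have : (0 : ℝ) ≤ j * Real.log a0 := by positivity
    nlinarith
  have h4 : Real.log (aa a0 (j + 1)) ≤ ((j : ℝ) + 1) ^ 2 := by
    refine h3.trans ?_
    rw [pow_two]
    exact mul_le_mul_of_nonneg_left hj (by positivity)
  have h5 : Real.log (Real.log (aa a0 (j + 1))) ≤ 2 * Real.log ((j : ℝ) + 1) := by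
    refine (Real.log_le_log hL h4).trans ?_
    rw [Real.log_pow]
    push_cast
    exact le_rfl
  have := mm_ge j
  linarith

/-- a large block gives a large partial sum -/
lemma large_of_all (y : ℕ → ℤ × ℤ → ℝ) (a0 : ℕ) (h0 : 3 ≤ a0) (j : ℕ) (hj : Real.log 3 + Real.log a0 ≤ (j : ℝ) + 1) (t : ℤ × ℤ)
    (h : All y (aa a0 j) (aa a0 j / mm j + 1) (mm j) t) :
    ∃ n, aa a0 j ≤ n ∧ n ≤ aa a0 (j + 1) ∧ 1 / 400 * √(n * Real.log (Real.log n)) ≤ |X y 0 n t| := by
  have h1 := all_sum (aa a0 j) (aa a0 j / mm j + 1) (mm j) t h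
  obtain ⟨h3, h4⟩ := aa_len a0 j
  have hll := loglog a0 h0 j hj
  have e : aa a0 (j + 1) = aa a0 j + mm j * (aa a0 j / mm j + 1) := rfl
  have hm := mm_pos j
  generalize aa a0 j / mm j + 1 = n at *
  generalize mm j = m at *
  have ha1 : 3 ≤ aa a0 j := by
    have := aa_mono a0 (Nat.zero_le j)
    exact h0.trans this
  generalize haj : aa a0 j = a at *
  generalize haj1 : aa a0 (j + 1) = b at *
  have hab : (a : ℝ) ≤ b := by exact_mod_cast (by omega : a ≤ b)
  have ha3 : (3 : ℝ) ≤ a := by exact_mod_cast ha1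
  have hmn : (b : ℝ) / 2 ≤ m * n := by
    have : (b : ℝ) = a + m * n := by exact_mod_cast e
    have h5 : (a : ℝ) ≤ m * n := by exact_mod_cast h3
    linarith
  have hsplit : X y 0 b t = X y 0 a t + X y a (m * n) t := by
    rw [e, X_add, zero_add]
  -- the block sum
  have hlow : 1 / 200 * √(b * Real.log (Real.log b)) ≤ X y a (m * n) t := by
    refine le_trans ?_ h1
    have hm0 : (0 : ℝ) ≤ m := Nat.cast_nonneg m
    have hn0 : (0 : ℝ) ≤ n := Nat.cast_nonneg n
    have h6 : √(b * Real.log (Real.log b)) ≤ √(24 * (m ^ 2 * n)) := by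
      apply Real.sqrt_le_sqrt
      have hb0 : (0 : ℝ) ≤ b := Nat.cast_nonneg b
      calc (b : ℝ) * Real.log (Real.log b) ≤ b * (12 * m) := mul_le_mul_of_nonneg_left hll hb0
        _ ≤ (2 * (m * n)) * (12 * m) := mul_le_mul_of_nonneg_right (by linarith) (by positivity)
        _ = 24 * (m ^ 2 * n) := by ring
    have h7 : √(24 * ((m : ℝ) ^ 2 * n)) = √24 * (m * √(n : ℝ)) := by
      rw [Real.sqrt_mul (by norm_num), Real.sqrt_mul (by positivity), Real.sqrt_sq hm0]
    have h8 : √(24 : ℝ) ≤ 4.9 := by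
      rw [Real.sqrt_le_left (by norm_num)]
      norm_num
    have h9 : 0 ≤ (m : ℝ) * √(n : ℝ) := by positivity
    rw [h7] at h6
    nlinarith
  rcases le_or_gt (1 / 400 * √(b * Real.log (Real.log b))) |X y 0 b t| with h5 | h5
  · exact ⟨b, by omega, le_rfl, h5⟩
  · refine ⟨a, le_rfl, by omega, ?_⟩
    have h6 : √((a : ℝ) * Real.log (Real.log a)) ≤ √(b * Real.log (Real.log b)) := by
      apply Real.sqrt_le_sqrt
      have hla : 1 ≤ Real.log a := by
        rw [Real.le_log_iff_exp_le (by linarith)]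
        linarith [Real.exp_one_lt_d9]
      have hlab : Real.log a ≤ Real.log b := Real.log_le_log (by linarith) hab
      have h7 : 0 ≤ Real.log (Real.log a) := Real.log_nonneg hla
      have h8 : Real.log (Real.log a) ≤ Real.log (Real.log b) := Real.log_le_log (by linarith) hlab
      exact mul_le_mul hab h8 h7 (by linarith)
    have h7 : X y a (m * n) t = X y 0 b t - X y 0 a t := by linarith
    have h8 := abs_le.1 (le_refl |X y 0 a t|)
    have h9 := abs_lt.1 h5
    have h10 : -X y 0 a t ≤ |X y 0 a t| := neg_le_abs _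
    rw [h7] at hlow
    linarith

end Pool.Agent.HP25.LM
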