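import Pool.Agent.HP25.LM.C

set_option autoImplicit false

/-! # Almost all integers of every interval have a large partial sum of bounded length -/

namespace Pool.Agent.HP25.LM

open Finset Filter Topology

lemma shift_one {m : ℕ} {g : ℤ → ℝ} (h : ∀ t, g (t + m) = g t) (c : ℤ) : ∑ i ∈ range m, g (c + i) = ∑ i ∈ range m, g (i : ℤ) := by
  have step : ∀ c : ℤ, ∑ i ∈ range m, g (c + 1 + i) = ∑ i ∈ range m, g (c + i) := by
    intro c
    have h1 : ∑ i ∈ range (m + 1), g (c + i) = ∑ i ∈ range m, g (c + i) + g (c + m) := sum_range_succ _ _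
    have h2 : ∑ i ∈ range (m + 1), g (c + i) = ∑ i ∈ range m, g (c + ((i + 1 : ℕ) : ℤ)) + g (c + ((0 : ℕ) : ℤ)) :=
      sum_range_succ' (fun i : ℕ => g (c + i)) _
    have h3 : ∑ i ∈ range m, g (c + ((i + 1 : ℕ) : ℤ)) = ∑ i ∈ range m, g (c + 1 + i) := by
      apply sum_congr rfl
      intro i _
      congr 1
      push_cast
      ring
    rw [h3] at h2
    have h4 : g (c + m) = g (c + ((0 : ℕ) : ℤ)) := by
      rw [h c]
      simp
    linarith
  induction c using Int.induction_on with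
  | zero => simp
  | succ k ih => rw [step, ih]
  | pred k ih =>
    rw [← ih, ← step]
    apply sum_congr rfl
    intro i _
    congr 1
    ring

lemma Ioc_sum (g : ℤ → ℝ) (x : ℕ) (c : ℤ) : ∑ t ∈ Ioc c (c + x), g t = ∑ i ∈ range x, g (c + 1 + i) := by
  refine sum_bij' (fun t _ => (t - (c + 1)).toNat) (fun i _ => c + 1 + (i : ℤ)) ?_ ?_ ?_ ?_ ?_
  · intro t ht
    rw [mem_Ioc] at ht
    rw [mem_range]
    omega
  · intro i hi
    rw [mem_range] at hi
    rw [mem_Ioc]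
    constructor <;> omega
  · intro t ht
    rw [mem_Ioc] at ht
    have : ((t - (c + 1)).toNat : ℤ) = t - (c + 1) := Int.toNat_of_nonneg (by omega)
    rw [this]
    ring
  · intro i hi
    simp
  · intro t ht
    rw [mem_Ioc] at ht
    have : ((t - (c + 1)).toNat : ℤ) = t - (c + 1) := Int.toNat_of_nonneg (by omega)
    congr 1
    rw [this]
    ring

/-- the sum of a nonnegative function with the period `m` over an interval of length `x ≥ m` -/
lemma one_dim {m : ℕ} (hm : 1 ≤ m) {g : ℤ → ℝ} (h : ∀ t, g (t + m) = g t) (h0 : ∀ t, 0 ≤ g t) (x : ℕ) (hx : m ≤ x) (c : ℤ) :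
    ∑ t ∈ Ioc c (c + x), g t ≤ 2 * x / m * ∑ i ∈ range m, g (i : ℤ) := by
  have hmr : (0 : ℝ) < m := by exact_mod_cast hm
  have h3 : ∑ i ∈ range (m * (x / m + 1)), g (c + 1 + ((i : ℕ) : ℤ)) = ((x / m + 1 : ℕ) : ℝ) * ∑ i ∈ range m, g (i : ℤ) := by
    rw [← shift_one h (c + 1)]
    refine sum_per (fun i : ℕ => g (c + 1 + (i : ℤ))) (fun t => ?_) (x / m + 1)
    have := h (c + 1 + (t : ℤ))
    rw [← this]
    congr 1
    push_cast
    ring
  have h4 : x ≤ m * (x / m + 1) := by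
    have := Nat.div_add_mod x m
    have := Nat.mod_lt x hm
    rw [Nat.mul_add, mul_one]
    omega
  have h5 : m * (x / m + 1) ≤ 2 * x := by
    have := Nat.div_mul_le_self x m
    rw [Nat.mul_add, mul_one, mul_comm]
    omega
  have hS : 0 ≤ ∑ i ∈ range m, g (i : ℤ) := sum_nonneg fun i _ => h0 _
  rw [Ioc_sum]
  calc ∑ i ∈ range x, g (c + 1 + i) ≤ ∑ i ∈ range (m * (x / m + 1)), g (c + 1 + i) :=
        sum_le_sum_of_subset_of_nonneg (range_subset_range.2 h4) fun i _ _ => h0 _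
    _ = ((x / m + 1 : ℕ) : ℝ) * ∑ i ∈ range m, g (i : ℤ) := h3
    _ ≤ 2 * x / m * ∑ i ∈ range m, g (i : ℤ) := by
        apply mul_le_mul_of_nonneg_right _ hS
        rw [le_div_iff₀ hmr, mul_comm]
        exact_mod_cast h5

lemma sum_box {m : ℕ} (hm : 1 ≤ m) {f : ℤ × ℤ → ℝ} (h : Per m f) (h0 : ∀ t, 0 ≤ f t) (x x' : ℕ) (hx : m ≤ x) (hx' : m ≤ x') (c c' : ℤ) :
    ∑ t ∈ Ioc c (c + x) ×ˢ Ioc c' (c' + x'), f t ≤ 4 * (x * x') * E m f := by
  have hmr : (0 : ℝ) < m := by exact_mod_cast hm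
  rw [sum_product]
  have h1 : ∀ a ∈ Ioc c (c + x), ∑ b ∈ Ioc c' (c' + x'), f (a, b) ≤ 2 * x' / m * ∑ i ∈ range m, f (a, (i : ℤ)) := fun a _ =>
    one_dim hm (fun t => (h a t).2) (fun t => h0 _) x' hx' c'
  refine (sum_le_sum h1).trans ?_
  rw [← mul_sum]
  have h2 := one_dim hm (g := fun a => ∑ i ∈ range m, f (a, (i : ℤ))) (fun t => by
    apply sum_congr rfl
    intro i _
    exact (h t i).1) (fun t => sum_nonneg fun i _ => h0 _) x hx c
  calc 2 * (x' : ℝ) / m * ∑ a ∈ Ioc c (c + x), ∑ i ∈ range m, f (a, (i : ℤ)) ≤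
        2 * x' / m * (2 * x / m * ∑ a ∈ range m, ∑ i ∈ range m, f ((a : ℤ), (i : ℤ))) :=
        mul_le_mul_of_nonneg_left h2 (by positivity)
    _ = 4 * (x * x') * E m f := by
        unfold E
        field_simp
        ring

lemma prod_small (j₀ : ℕ) (δ : ℝ) (hδ : 0 < δ) : ∃ J : ℕ, ∏ i ∈ range J, (1 - (1 / 270 : ℝ) ^ mm (j₀ + i)) ≤ δ := by
  have h1 := Real.tendsto_sum_range_one_div_nat_succ_atTop
  obtain ⟨M, hM⟩ := (tendsto_atTop.1 h1 (∑ i ∈ range j₀, 1 / ((i : ℝ) + 1) + 270 * Real.log (1 / δ))).exists_forall_of_atTop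
  have h2 := hM (j₀ + M) (by omega)
  refine ⟨M, ?_⟩
  rw [sum_range_add] at h2
  have h3 : 270 * Real.log (1 / δ) ≤ ∑ i ∈ range M, 1 / (((j₀ + i : ℕ) : ℝ) + 1) := by linarith
  have h4 : ∏ i ∈ range M, (1 - (1 / 270 : ℝ) ^ mm (j₀ + i)) ≤ ∏ i ∈ range M, Real.exp (-(1 / 270 * (1 / (((j₀ + i : ℕ) : ℝ) + 1)))) := by
    apply Finset.prod_le_prod
    · intro i _
      have : (1 / 270 : ℝ) ^ mm (j₀ + i) ≤ 1 := pow_le_one₀ (by norm_num) (by norm_num)
      linarith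
    · intro i _
      have h5 := mm_prob (j₀ + i)
      have h6 := Real.add_one_le_exp (-(1 / 270 * (1 / (((j₀ + i : ℕ) : ℝ) + 1))))
      have h7 : 1 / (270 * (((j₀ + i : ℕ) : ℝ) + 1)) = 1 / 270 * (1 / (((j₀ + i : ℕ) : ℝ) + 1)) := by
        rw [one_div_mul_one_div]
      rw [h7] at h5
      linarith
  refine h4.trans ?_
  rw [← Real.exp_sum, sum_neg_distrib, ← mul_sum, ← Real.le_log_iff_exp_le hδ]
  rw [one_div, Real.log_inv] at h3
  linarith

/-- **The law of the iterated logarithm from below, uniformly**: for all pairs `t` of integers of every box with sides of at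
least `M`, except a proportion `δ`, there is a partial sum of a length `n₁ ≤ n ≤ n₀` of a size of at least
`(1/400) √(n log log n)`. -/
theorem lil {q : ℕ → ℕ} {y : ℕ → ℤ × ℤ → ℝ} (h : Sys q y) (n₁ : ℕ) (δ : ℝ) (hδ : 0 < δ) :
    ∃ n₀ M : ℕ, ∀ x x' : ℕ, M ≤ x → M ≤ x' → ∀ c c' : ℤ, ∀ T : Finset (ℤ × ℤ), T ⊆ Ioc c (c + x) ×ˢ Ioc c' (c' + x') →
      (∀ t ∈ T, ∀ n, n₁ ≤ n → 3 ≤ n → n ≤ n₀ → |X y 0 n t| < 1 / 400 * √(n * Real.log (Real.log n))) →
      (T.card : ℝ) ≤ δ * (x * x') := by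
  obtain ⟨a0, ha0⟩ : ∃ a0, a0 = max n₁ 3 := ⟨_, rfl⟩
  have h3 : 3 ≤ a0 := by omega
  obtain ⟨j₀, hj₀⟩ : ∃ j₀ : ℕ, Real.log 3 + Real.log a0 ≤ j₀ := exists_nat_ge _
  obtain ⟨J, hJ⟩ := prod_small j₀ (δ / 4) (by linarith)
  obtain ⟨l, hl, hper, hE⟩ := none_per h (fun i => aa a0 (j₀ + i)) (fun i => mm (j₀ + i)) (fun i => aa a0 (j₀ + i) / mm (j₀ + i) + 1)
    (fun i => rfl) J
  have hE' := hE (fun j => Nat.le_add_left 1 _)
  refine ⟨aa a0 (j₀ + J), Q q (aa a0 (j₀ + 0)) l, fun x x' hx hx' c c' T hT hbad => ?_⟩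
  have h4 := sum_box (Q_pos h _ _) hper (ind_nonneg _) x x' hx hx' c c'
  have h5 : (T.card : ℝ) ≤ ∑ t ∈ Ioc c (c + x) ×ˢ Ioc c' (c' + x'), ind (NoneLarge y (fun i => aa a0 (j₀ + i)) (fun i => mm (j₀ + i))
      (fun i => aa a0 (j₀ + i) / mm (j₀ + i) + 1) J) t := by
    have h6 : (T.card : ℝ) = ∑ t ∈ T, 1 := by simp
    rw [h6]
    refine le_trans (sum_le_sum ?_) (sum_le_sum_of_subset_of_nonneg hT fun t _ _ => ind_nonneg _ t)
    intro t ht
    have hnone : ∀ J', J' ≤ J → NoneLarge y (fun i => aa a0 (j₀ + i)) (fun i => mm (j₀ + i))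
        (fun i => aa a0 (j₀ + i) / mm (j₀ + i) + 1) J' t := by
      intro J'
      induction J' with
      | zero => intro _; trivial
      | succ J' ih =>
        intro hJ'
        refine ⟨ih (by omega), fun hall => ?_⟩
        obtain ⟨n, g1, g2, g3⟩ := large_of_all y a0 h3 (j₀ + J') (by push_cast; linarith [Nat.cast_nonneg (α := ℝ) J']) t hall
        have g4 : a0 ≤ aa a0 (j₀ + J') := aa_mono a0 (Nat.zero_le _)
        have g5 : aa a0 (j₀ + J' + 1) ≤ aa a0 (j₀ + J) := aa_mono a0 (by omega)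
        have := hbad t ht n (by omega) (by omega) (by omega)
        linarith
    have := hnone J le_rfl
    unfold ind
    rw [if_pos this]
  have h7 : (0 : ℝ) ≤ 4 * (x * x') := by positivity
  calc (T.card : ℝ) ≤ 4 * (x * x') * E (Q q (aa a0 (j₀ + 0)) l) (ind (NoneLarge y (fun i => aa a0 (j₀ + i)) (fun i => mm (j₀ + i))
        (fun i => aa a0 (j₀ + i) / mm (j₀ + i) + 1) J)) := h5.trans h4
    _ ≤ 4 * (x * x') * (δ / 4) := mul_le_mul_of_nonneg_left (hE'.trans hJ) h7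
    _ = δ * (x * x') := by ring

end Pool.Agent.HP25.LM
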