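import Mathlib

set_option autoImplicit false

/-! # At least two ninths of the cubic polynomials `x³ + a x + b` over a finite prime field have no zero -/

open Finset

namespace Pool.Agent.HP25.LM

variable (p : ℕ) [Fact p.Prime]

/-- the zeros of `x³ + a x + b` -/
def rts (z : ZMod p × ZMod p) : Finset (ZMod p) := univ.filter fun x => x ^ 3 + z.1 * x + z.2 = 0

lemma rts_le (z : ZMod p × ZMod p) : (rts p z).card ≤ 3 := by
  have hP : (Polynomial.X ^ 3 + Polynomial.C z.1 * Polynomial.X + Polynomial.C z.2 : Polynomial (ZMod p)).natDegree = 3 := by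
    compute_degree!
  have h0 : (Polynomial.X ^ 3 + Polynomial.C z.1 * Polynomial.X + Polynomial.C z.2 : Polynomial (ZMod p)) ≠ 0 := by
    intro h
    rw [h] at hP
    simp at hP
  have h1 : rts p z ⊆ (Polynomial.X ^ 3 + Polynomial.C z.1 * Polynomial.X + Polynomial.C z.2 : Polynomial (ZMod p)).roots.toFinset := by
    intro x hx
    rw [Multiset.mem_toFinset, Polynomial.mem_roots h0, Polynomial.IsRoot.def]
    have := (mem_filter.1 hx).2
    simpa using this
  exact (card_le_card h1).trans ((Multiset.toFinset_card_le _).trans ((Polynomial.card_roots' _).trans hP.le))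

lemma sum_rts : ∑ z : ZMod p × ZMod p, (rts p z).card ≤ p ^ 2 := by
  have h1 : ∑ z : ZMod p × ZMod p, (rts p z).card = ((univ : Finset (ZMod p × ZMod p)).sigma fun z => rts p z).card := (card_sigma _ _).symm
  rw [h1]
  have h2 : (univ : Finset (ZMod p × ZMod p)).card = p ^ 2 := by
    rw [card_univ, Fintype.card_prod, ZMod.card]
    ring
  rw [← h2]
  apply card_le_card_of_injOn (fun w => (w.1.1, w.2)) (fun _ _ => mem_coe.2 (mem_univ _))
  rintro ⟨⟨a, b⟩, x⟩ h ⟨⟨a', b'⟩, x'⟩ h' he
  have e1 := (mem_filter.1 (mem_sigma.1 (mem_coe.1 h)).2).2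
  have e2 := (mem_filter.1 (mem_sigma.1 (mem_coe.1 h')).2).2
  simp only [Prod.mk.injEq] at he
  obtain ⟨rfl, rfl⟩ := he
  simp only at e1 e2
  have : b = b' := by linear_combination e1 - e2
  rw [this]

lemma sum_pairs : p * (p - 1) ≤ ∑ z : ZMod p × ZMod p, (rts p z).card * ((rts p z).card - 1) := by
  have h1 : ∑ z : ZMod p × ZMod p, (rts p z).card * ((rts p z).card - 1) =
      ((univ : Finset (ZMod p × ZMod p)).sigma fun z => (rts p z).offDiag).card := by
    rw [card_sigma]
    apply sum_congr rfl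
    intro z _
    rw [offDiag_card, Nat.mul_sub, mul_one]
  have h2 : ((univ : Finset (ZMod p)).offDiag).card = p * (p - 1) := by
    rw [offDiag_card, card_univ, ZMod.card, Nat.mul_sub, mul_one]
  rw [h1, ← h2]
  apply card_le_card_of_injOn (fun w => (⟨(-(w.1 ^ 2 + w.1 * w.2 + w.2 ^ 2), w.1 * w.2 * (w.1 + w.2)), w⟩ :
    (_ : ZMod p × ZMod p) × ZMod p × ZMod p))
  · rintro ⟨x, y⟩ hw
    have hxy := (mem_offDiag.1 (mem_coe.1 hw)).2.2
    rw [mem_coe, mem_sigma]
    refine ⟨mem_univ _, ?_⟩
    rw [mem_offDiag]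
    refine ⟨?_, ?_, hxy⟩
    · unfold rts
      rw [mem_filter]
      exact ⟨mem_univ _, by ring⟩
    · unfold rts
      rw [mem_filter]
      exact ⟨mem_univ _, by ring⟩
  · intro w _ w' _ h
    have := congrArg (fun v : (_ : ZMod p × ZMod p) × ZMod p × ZMod p => v.2) h
    exact this

lemma no_root_card : p * (p - 1) ≤ 3 * (univ.filter fun z : ZMod p × ZMod p => rts p z = ∅).card := by
  have h1 := sum_rts p
  have h2 := sum_pairs p
  have h3 : ∀ z : ZMod p × ZMod p, (rts p z).card * ((rts p z).card - 1) + 3 * (if rts p z = ∅ then 0 else 1) ≤ 3 * (rts p z).card := by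
    intro z
    have h4 := rts_le p z
    by_cases h5 : rts p z = ∅
    · rw [if_pos h5, h5]
      simp
    · rw [if_neg h5]
      have h6 : 1 ≤ (rts p z).card := Nat.one_le_iff_ne_zero.2 (by rwa [Ne, card_eq_zero])
      generalize (rts p z).card = r at *
      interval_cases r <;> omega
  have h4 := sum_le_sum fun z (_ : z ∈ (univ : Finset (ZMod p × ZMod p))) => h3 z
  rw [sum_add_distrib, ← mul_sum, ← mul_sum] at h4
  have h5 : ∑ z : ZMod p × ZMod p, (if rts p z = ∅ then 0 else 1) + (univ.filter fun z : ZMod p × ZMod p => rts p z = ∅).card = p ^ 2 := by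
    rw [card_filter, ← sum_add_distrib]
    have : ∀ z : ZMod p × ZMod p, (if rts p z = ∅ then 0 else 1) + (if rts p z = ∅ then 1 else 0) = 1 := by
      intro z
      split_ifs <;> rfl
    rw [sum_congr rfl fun z _ => this z]
    simp only [sum_const, card_univ, Fintype.card_prod, ZMod.card]
    simp
    ring
  omega

/-- a polynomial `x³ + a x + b` with discriminant zero has a zero -/
lemma root_of_disc (hp2 : p ≠ 2) (a b : ZMod p) (h : 4 * a ^ 3 + 27 * b ^ 2 = 0) : ∃ x : ZMod p, x ^ 3 + a * x + b = 0 := by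
  by_cases ha : a = 0
  · subst ha
    have h1 : (27 : ZMod p) * b ^ 2 = 0 := by linear_combination h
    rcases mul_eq_zero.1 h1 with h2 | h2
    · have h3 : p ∣ 27 := by
        have : ((27 : ℕ) : ZMod p) = 0 := by exact_mod_cast h2
        exact (ZMod.natCast_eq_zero_iff 27 p).1 this
      have h4 : p = 3 := by
        have h5 : p ∣ 3 ^ 3 := by norm_num; exact h3
        exact (Nat.prime_dvd_prime_iff_eq Fact.out Nat.prime_three).1 ((Fact.out : p.Prime).dvd_of_dvd_pow h5)
      subst h4
      refine ⟨-b, ?_⟩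
      have := ZMod.pow_card b
      linear_combination -this
    · refine ⟨0, ?_⟩
      have : b = 0 := by simpa using h2
      rw [this]
      ring
  · have h2 : (2 : ZMod p) ≠ 0 := by
      intro h2
      have h3 : ((2 : ℕ) : ZMod p) = 0 := by exact_mod_cast h2
      have h4 := (ZMod.natCast_eq_zero_iff 2 p).1 h3
      exact hp2 ((Nat.prime_dvd_prime_iff_eq Fact.out Nat.prime_two).1 h4)
    refine ⟨-(3 * b) / (2 * a), ?_⟩
    have h3 : (2 : ZMod p) * a ≠ 0 := mul_ne_zero h2 ha
    field_simp
    linear_combination (-b) * h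

end Pool.Agent.HP25.LM
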