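import Pool.Agent.HP25.LM.D
import Pool.Agent.HP25.LM.F
import Pool.Agent.HP25.LL.G

set_option autoImplicit false

/-! # The signs of the traces of all elliptic curves -/

open Finset

namespace Pool.Agent.HP25.LM

open Pool.Agent.W406.TW (ap jz)
open Pool.Agent.HP25.LL (pr tr pr_prime tr_twist)

/-- the sign of the trace at the `k`-th prime -/
noncomputable def sg (k : ℕ) (t : ℤ × ℤ) : ℝ := ((tr t.1 t.2 k).sign : ℝ)

lemma sg_vals (k : ℕ) (t : ℤ × ℤ) : sg k t = 0 ∨ sg k t = 1 ∨ sg k t = -1 := by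
  unfold sg
  rcases lt_trichotomy (tr t.1 t.2 k) 0 with h | h | h
  · rw [Int.sign_eq_neg_one_of_neg h]; norm_num
  · rw [h]; norm_num
  · rw [Int.sign_eq_one_of_pos h]; norm_num

lemma ap_congr (p : ℕ) {A A' B B' : ℤ} (hA : (p : ℤ) ∣ A - A') (hB : (p : ℤ) ∣ B - B') : ap A B p = ap A' B' p := by
  unfold ap
  congr 1
  apply sum_congr rfl
  intro x _
  apply jacobiSym.mod_left'
  apply Int.emod_emod_of_dvd _ dvd_rfl |>.symm.trans
  rw [Int.emod_emod_of_dvd _ dvd_rfl]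
  apply Int.ModEq.symm
  apply (Int.modEq_iff_dvd).2
  have e : (x : ℤ) ^ 3 + A * x + B - ((x : ℤ) ^ 3 + A' * x + B') = (A - A') * x + (B - B') := by ring
  rw [e]
  exact dvd_add (hA.mul_right _) hB

lemma tr_congr (k : ℕ) {A A' B B' : ℤ} (hA : (pr k : ℤ) ∣ A - A') (hB : (pr k : ℤ) ∣ B - B') : tr A B k = tr A' B' k := by
  unfold tr
  rw [ap_congr (pr k) hA hB]
  have h : (pr k : ℤ) ∣ 2 * (4 * A ^ 3 + 27 * B ^ 2) - 2 * (4 * A' ^ 3 + 27 * B' ^ 2) := by
    have e : 2 * (4 * A ^ 3 + 27 * B ^ 2) - 2 * (4 * A' ^ 3 + 27 * B' ^ 2) =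
      (A - A') * (8 * (A ^ 2 + A * A' + A' ^ 2)) + (B - B') * (54 * (B + B')) := by ring
    rw [e]
    exact dvd_add (hA.mul_right _) (hB.mul_right _)
  have h2 := dvd_iff_dvd_of_dvd_sub h
  by_cases h3 : (pr k : ℤ) ∣ 2 * (4 * A ^ 3 + 27 * B ^ 2)
  · rw [if_pos h3, if_pos (h2.mp h3)]
  · rw [if_neg h3, if_neg (fun h4 => h3 (h2.mpr h4))]

lemma sg_per (k : ℕ) : Per (pr k) (sg k) := by
  intro a b
  unfold sg
  constructor
  · simp only
    rw [tr_congr k (A := a + pr k) (A' := a) (B := b) (B' := b) (by simp) (by simp)]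
  · simp only
    rw [tr_congr k (A := a) (A' := a) (B := b + pr k) (B' := b) (by simp) (by simp)]

/-- the sum over the pairs of residues as a sum over the finite field -/
lemma sum_field {p : ℕ} [NeZero p] {f : ℤ × ℤ → ℝ} :
    ∑ a ∈ range p, ∑ b ∈ range p, f ((a : ℤ), (b : ℤ)) = ∑ z : ZMod p × ZMod p, f ((z.1.val : ℤ), (z.2.val : ℤ)) := by
  have h1 : ∀ g : ℕ → ℝ, ∑ a ∈ range p, g a = ∑ u : ZMod p, g u.val := by
    intro g
    refine sum_bij' (fun i _ => (i : ZMod p)) (fun x _ => x.val) (fun i _ => mem_univ _)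
      (fun x _ => mem_range.2 (ZMod.val_lt x)) (fun i hi => ?_) (fun x _ => ?_) (fun i hi => ?_)
    · exact ZMod.val_natCast_of_lt (mem_range.1 hi)
    · exact ZMod.natCast_zmod_val x
    · rw [ZMod.val_natCast_of_lt (mem_range.1 hi)]
  rw [h1 fun a => ∑ b ∈ range p, f ((a : ℤ), (b : ℤ)), Fintype.sum_prod_type]
  apply sum_congr rfl
  intro u _
  exact h1 fun b => f ((u.val : ℤ), (b : ℤ))

lemma sg_mean (k : ℕ) (hk : pr k ≠ 2) : E (pr k) (sg k) = 0 := by
  have hp := pr_prime k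
  have : NeZero (pr k) := ⟨hp.ne_zero⟩
  have := Fact.mk hp
  obtain ⟨r, hr⟩ := quadraticChar_exists_neg_one (F := ZMod (pr k)) (by rw [ZMod.ringChar_zmod_n]; exact hk)
  have hD : jacobiSym (r.val : ℤ) (pr k) = -1 := by
    rw [← jacobiSym.legendreSym.to_jacobiSym, legendreSym]
    rw [← hr]
    congr 1
    simp
  have hr0 : r ≠ 0 := by
    intro h
    rw [h] at hr
    simp at hr
  have h1 : ∀ t : ℤ × ℤ, sg k (t.1 * (r.val : ℤ) ^ 2, t.2 * (r.val : ℤ) ^ 3) = -sg k t := by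
    intro t
    unfold sg
    rw [tr_twist]
    unfold Pool.Agent.HP25.LL.chi
    rw [hD]
    push_cast
    ring
  unfold E
  rw [sum_field]
  have h2 : ∑ z : ZMod (pr k) × ZMod (pr k), sg k ((z.1.val : ℤ), (z.2.val : ℤ)) =
      ∑ z : ZMod (pr k) × ZMod (pr k), -sg k ((z.1.val : ℤ), (z.2.val : ℤ)) := by
    have h3 : ∀ z : ZMod (pr k) × ZMod (pr k), -sg k ((z.1.val : ℤ), (z.2.val : ℤ)) =
        sg k (((z.1 * r ^ 2).val : ℤ), ((z.2 * r ^ 3).val : ℤ)) := by
      intro z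
      rw [← h1]
      unfold sg
      simp only
      rw [tr_congr k (A := z.1.val * (r.val : ℤ) ^ 2) (A' := ((z.1 * r ^ 2).val : ℤ)) (B := z.2.val * (r.val : ℤ) ^ 3)
        (B' := ((z.2 * r ^ 3).val : ℤ))]
      · rw [← ZMod.intCast_zmod_eq_zero_iff_dvd]
        push_cast
        simp
      · rw [← ZMod.intCast_zmod_eq_zero_iff_dvd]
        push_cast
        simp
    rw [sum_congr rfl fun z _ => h3 z]
    have hu2 : IsUnit (r ^ 2) := (Ne.isUnit hr0).pow 2
    have hu3 : IsUnit (r ^ 3) := (Ne.isUnit hr0).pow 3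
    obtain ⟨u, hu⟩ := hu2
    obtain ⟨v, hv⟩ := hu3
    rw [← hu, ← hv]
    exact (Fintype.sum_equiv ((Units.mulRight u).prodCongr (Units.mulRight v)) _ _ (fun z => rfl)).symm
  rw [sum_neg_distrib] at h2
  have h3 : ∑ z : ZMod (pr k) × ZMod (pr k), sg k ((z.1.val : ℤ), (z.2.val : ℤ)) = 0 := by linarith
  rw [h3, zero_div]

/-- no zero modulo `p`: the trace is different from zero -/
lemma tr_ne (k : ℕ) (hk : pr k ≠ 2) (a b : ℤ) (h : ∀ x : ZMod (pr k), x ^ 3 + (a : ZMod (pr k)) * x + (b : ZMod (pr k)) ≠ 0) :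
    tr a b k ≠ 0 := by
  have hp := pr_prime k
  have := Fact.mk hp
  unfold tr
  rw [if_neg]
  · intro h0
    unfold ap at h0
    have h1 : ∑ x ∈ range (pr k), jacobiSym ((x : ℤ) ^ 3 + a * x + b) (pr k) = 0 := by omega
    have h2 : ∀ x ∈ range (pr k), (2 : ℤ) ∣ jacobiSym ((x : ℤ) ^ 3 + a * x + b) (pr k) - 1 := by
      intro x _
      have h3 : jacobiSym ((x : ℤ) ^ 3 + a * x + b) (pr k) ≠ 0 := by
        rw [← jacobiSym.legendreSym.to_jacobiSym]
        intro h4
        rw [legendreSym.eq_zero_iff] at h4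
        apply h (x : ZMod (pr k))
        push_cast at h4
        exact h4
      rcases jacobiSym.trichotomy ((x : ℤ) ^ 3 + a * x + b) (pr k) with h | h | h
      · exact absurd h h3
      · rw [h]; norm_num
      · rw [h]; norm_num
    have h3 := dvd_sum h2
    rw [sum_sub_distrib, h1] at h3
    simp only [sum_const, card_range, nsmul_eq_mul, mul_one, zero_sub, dvd_neg] at h3
    have h4 : 2 ∣ pr k := by exact_mod_cast h3
    exact hk ((Nat.prime_dvd_prime_iff_eq Nat.prime_two hp).1 h4).symm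
  · intro hd
    have h1 : ((2 * (4 * a ^ 3 + 27 * b ^ 2) : ℤ) : ZMod (pr k)) = 0 := (ZMod.intCast_zmod_eq_zero_iff_dvd _ _).2 hd
    push_cast at h1
    have h2 : (2 : ZMod (pr k)) ≠ 0 := by
      intro h2
      have h3 : ((2 : ℕ) : ZMod (pr k)) = 0 := by exact_mod_cast h2
      have h4 := (ZMod.natCast_eq_zero_iff 2 (pr k)).1 h3
      exact hk ((Nat.prime_dvd_prime_iff_eq hp Nat.prime_two).1 h4)
    obtain ⟨x, hx⟩ := root_of_disc (pr k) hk a b ((mul_eq_zero.1 h1).resolve_left h2)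
    exact h x hx

lemma sg_var (k : ℕ) (hk : pr k ≠ 2) : 2 / 9 ≤ E (pr k) (fun t => sg k t ^ 2) := by
  have hp := pr_prime k
  have : NeZero (pr k) := ⟨hp.ne_zero⟩
  have := Fact.mk hp
  have hp3 : 3 ≤ pr k := by
    have := hp.two_le
    omega
  have hpr : (3 : ℝ) ≤ pr k := by exact_mod_cast hp3
  have h1 := no_root_card (pr k)
  have h1r : (pr k : ℝ) * (pr k - 1) ≤ 3 * ((univ.filter fun z : ZMod (pr k) × ZMod (pr k) => rts (pr k) z = ∅).card : ℝ) := by
    have h2 : ((pr k * (pr k - 1) : ℕ) : ℝ) ≤ ((3 * (univ.filter fun z : ZMod (pr k) × ZMod (pr k) => rts (pr k) z = ∅).card : ℕ) : ℝ) :=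
      Nat.cast_le.2 h1
    rw [Nat.cast_mul, Nat.cast_sub (by omega), Nat.cast_mul] at h2
    simpa using h2
  have h2 : ((univ.filter fun z : ZMod (pr k) × ZMod (pr k) => rts (pr k) z = ∅).card : ℝ) ≤
      ∑ z : ZMod (pr k) × ZMod (pr k), sg k ((z.1.val : ℤ), (z.2.val : ℤ)) ^ 2 := by
    rw [card_filter, Nat.cast_sum]
    apply sum_le_sum
    intro z _
    by_cases h3 : rts (pr k) z = ∅
    · rw [if_pos h3]
      have h4 : tr (z.1.val : ℤ) (z.2.val : ℤ) k ≠ 0 := by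
        apply tr_ne k hk
        intro x hx
        have h5 : x ∈ rts (pr k) z := by
          unfold rts
          rw [mem_filter]
          refine ⟨mem_univ _, ?_⟩
          simpa using hx
        rw [h3] at h5
        exact absurd h5 (notMem_empty _)
      have h5 : sg k ((z.1.val : ℤ), (z.2.val : ℤ)) ≠ 0 := by
        unfold sg
        simp only
        intro h6
        have h7 : (tr (z.1.val : ℤ) (z.2.val : ℤ) k).sign = 0 := by exact_mod_cast h6
        exact h4 (Int.sign_eq_zero_iff_zero.1 h7)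
      rcases sg_vals k ((z.1.val : ℤ), (z.2.val : ℤ)) with h6 | h6 | h6
      · exact absurd h6 h5
      · rw [h6]; norm_num
      · rw [h6]; norm_num
    · rw [if_neg h3]
      push_cast
      exact sq_nonneg _
  unfold E
  rw [le_div_iff₀ (by positivity), sum_field (f := fun t => sg k t ^ 2)]
  nlinarith

lemma sys2 : Sys (fun i => pr (i + 1)) (fun i => sg (i + 1)) := by
  have h2 : ∀ i, pr (i + 1) ≠ 2 := by
    intro i h
    have h1 := Pool.Agent.HP25.LL.pr_strict (Nat.succ_pos i)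
    have h3 := (pr_prime 0).two_le
    have h4 : i.succ = i + 1 := rfl
    rw [h4] at h1
    omega
  refine ⟨fun i => (pr_prime _).one_lt.le, fun i j hij => ?_, fun i => sg_per _, fun i => sg_mean _ (h2 i), fun i => sg_var _ (h2 i),
    fun i t => ?_⟩
  · apply (Nat.coprime_primes (pr_prime _) (pr_prime _)).2
    intro h
    have := Pool.Agent.HP25.LL.pr_strict.injective h
    omega
  · rcases sg_vals (i + 1) t with h | h | h <;> rw [h] <;> norm_num

lemma sum_sg (A B : ℤ) (n : ℕ) : ∑ k ∈ range (n + 1), ((tr A B k).sign : ℝ) = X (fun i => sg (i + 1)) 0 n (A, B) := by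
  rw [sum_range_succ']
  have h0 : pr 0 = 2 := Nat.nth_prime_zero_eq_two
  have h1 : tr A B 0 = 0 := by
    unfold tr
    rw [h0, if_pos]
    norm_num
  rw [h1]
  unfold X sg
  simp

/-- **Main theorem**: for all pairs of integers in every large box, except a proportion `δ`, the star discrepancies of the angles
of the curve are large in all dimensions for one `K` between `K₁` and `K₀`. -/
theorem main2 (δ : ℝ) (hδ : 0 < δ) (K₁ : ℕ) : ∃ K₀ M : ℕ, ∀ x x' : ℕ, M ≤ x → M ≤ x' → ∀ c c' : ℤ, ∀ T : Finset (ℤ × ℤ),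
    T ⊆ Ioc c (c + x) ×ˢ Ioc c' (c' + x') →
    (∀ t ∈ T, ¬ ∃ K, K₁ ≤ K ∧ K ≤ K₀ ∧ ∀ s : ℕ, 1 ≤ s →
      1 / 3200 * √(K * Real.log (Real.log K)) ≤ K * Pool.Agent.HP25.LL.starDisc (tr t.1 t.2) s K) →
    (T.card : ℝ) ≤ δ * (x * x') := by
  obtain ⟨n₀, M, h⟩ := lil sys2 (K₁ + 16) δ hδ
  refine ⟨n₀ + 1, M, fun x x' hx hx' c c' T hT hbad => h x x' hx hx' c c' T hT fun t ht n hn1 hn3 hn0 => ?_⟩
  by_contra hcon
  push Not at hcon
  apply hbad t ht
  refine ⟨n + 1, by omega, by omega, fun s hs => ?_⟩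
  have h1 := Pool.Agent.HP25.LL.sign_sum (tr t.1 t.2) s (n + 1) hs (by omega)
  rw [sum_sg] at h1
  have hn16 : (16 : ℝ) ≤ n := by exact_mod_cast (by omega : 16 ≤ n)
  have hln : 2 ≤ Real.log n := by
    rw [Real.le_log_iff_exp_le (by linarith)]
    have h2 : Real.exp 2 = Real.exp 1 ^ 2 := by
      rw [← Real.exp_nat_mul]
      norm_num
    rw [h2]
    have h3 := Real.exp_one_lt_d9
    have h4 := Real.exp_one_gt_d9
    nlinarith
  have hl1 : Real.log ((n : ℝ) + 1) ≤ Real.log n ^ 2 := by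
    have h2 : Real.log ((n : ℝ) + 1) ≤ Real.log ((n : ℝ) ^ 2) := Real.log_le_log (by linarith) (by nlinarith)
    rw [Real.log_pow] at h2
    push_cast at h2
    nlinarith
  have hll : Real.log (Real.log ((n : ℝ) + 1)) ≤ 2 * Real.log (Real.log n) := by
    have h2 : 0 < Real.log ((n : ℝ) + 1) := Real.log_pos (by linarith)
    have h3 := Real.log_le_log h2 hl1
    rw [Real.log_pow] at h3
    exact_mod_cast h3
  have hll0 : 0 ≤ Real.log (Real.log n) := Real.log_nonneg (by linarith)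
  have h2 : √(((n + 1 : ℕ) : ℝ) * Real.log (Real.log ((n + 1 : ℕ) : ℝ))) ≤ 2 * √(n * Real.log (Real.log n)) := by
    rw [show (2 : ℝ) * √(n * Real.log (Real.log n)) = √(2 ^ 2 * (n * Real.log (Real.log n))) by
      rw [Real.sqrt_mul (show (0 : ℝ) ≤ 2 ^ 2 by norm_num) (n * Real.log (Real.log n)), Real.sqrt_sq (by norm_num)]]
    apply Real.sqrt_le_sqrt
    push_cast
    have h3 : ((n : ℝ) + 1) * Real.log (Real.log ((n : ℝ) + 1)) ≤ ((n : ℝ) + 1) * (2 * Real.log (Real.log n)) :=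
      mul_le_mul_of_nonneg_left hll (by linarith)
    nlinarith
  have h3 : X (fun i => sg (i + 1)) 0 n (t.1, t.2) = X (fun i => sg (i + 1)) 0 n t := rfl
  rw [h3] at h1
  linarith

end Pool.Agent.HP25.LM
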